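import Pool.Agent.Lib.MP_6df72f_an.KP.Main
import Pool.Agent.Lib.MP_6df72f_an.Univ

/-!
From the block estimate to the growth of the norms.
-/

open Filter Topology Finset

namespace Pool.Agent.Lib.MP_6df72f_an.KP.Model

variable {𝕜 : Type*} [RCLike 𝕜] {E : Type*} [NormedAddCommGroup E] [NormedSpace 𝕜 E]
  (M : Model 𝕜 E)

theorem norm_a (k : ℕ) : ‖M.a k‖ ≤ 1 := by
  refine M.norm_le _ _ zero_le_one fun y => ?_
  cases y with
  | inl z => rw [M.inl_a]; exact z.norm_le k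
  | inr z => simp [M.inr_a]

theorem growth (f : ℕ → E →L[𝕜] 𝕜) (hf : ∀ i k, f i (M.a k) = if k = i then 1 else 0)
    (K : ℝ) (hK0 : 0 ≤ K) (hK : ∀ (a : ℕ → 𝕜) (n m : ℕ), n ≤ m →
      ‖∑ i ∈ range n, a i • f i‖ ≤ K * ‖∑ i ∈ range m, a i • f i‖) (N : ℕ) (hN : 1 ≤ N) :
    ∃ n < N, 1 / (1600 * (K + 1)) * Real.log N ≤ ‖f n‖ := by
  obtain ⟨n, hn, hmax⟩ := exists_max_image (range N) (fun k => ‖f k‖) ⟨0, mem_range.2 hN⟩
  refine ⟨n, mem_range.1 hn, ?_⟩
  have h1 : 1 ≤ ‖f n‖ := by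
    have h2 := (f 0).le_opNorm (M.a 0)
    rw [hf, if_pos rfl, norm_one] at h2
    have h3 := mul_le_mul_of_nonneg_left (M.norm_a 0) (norm_nonneg (f 0))
    have h4 := hmax 0 (mem_range.2 hN)
    linarith
  rw [one_div_mul_eq_div, div_le_iff₀ (by positivity)]
  have hNR : (0 : ℝ) < N := by exact_mod_cast hN
  rcases lt_or_ge N 8 with h8 | h8
  · have h2 := Real.log_le_sub_one_of_pos hNR
    have h3 : (N : ℝ) ≤ 8 := by exact_mod_cast h8.le
    nlinarith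
  · have h2 : 3 ≤ Nat.log 2 N := Nat.le_log_of_pow_le (by norm_num) h8
    obtain ⟨m, hm⟩ : ∃ m, Nat.log 2 N = m + 2 := ⟨Nat.log 2 N - 2, by omega⟩
    have h3 : 2 ^ (m + 2) ≤ N := hm ▸ Nat.pow_log_le_self 2 (by omega)
    have h4 : N < 2 ^ (m + 2 + 1) := hm ▸ Nat.lt_pow_succ_log_self (by norm_num) N
    have h5 := M.main f hf K hK0 hK m (by omega) ‖f n‖ fun k hk =>
      hmax k (mem_range.2 (by rw [pow_add] at h3; omega))
    have h6 : Real.log N ≤ (m + 3 : ℕ) * Real.log 2 := by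
      rw [← Real.log_pow]
      exact Real.log_le_log hNR (by exact_mod_cast h4.le)
    have h7 : (1 : ℝ) ≤ m := by exact_mod_cast (by omega : 1 ≤ m)
    have h9 : 0 < Real.log 2 := Real.log_pos one_lt_two
    push_cast at h6
    nlinarith

theorem phi_grunblum (a : ℕ → 𝕜) (n m : ℕ) (h : n ≤ m) :
    ‖∑ i ∈ range n, a i • M.phi i‖ ≤ 1 * ‖∑ i ∈ range m, a i • M.phi i‖ := by
  rw [one_mul, norm_phi, norm_phi]
  exact Real.sqrt_le_sqrt
    (sum_le_sum_of_subset_of_nonneg (range_mono h) fun _ _ _ => by positivity)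

theorem phi_ne (n : ℕ) : M.phi n ≠ 0 := fun h => by
  have := M.phi_a n n
  rw [h, if_pos rfl] at this
  exact zero_ne_one this

end Pool.Agent.Lib.MP_6df72f_an.KP.Model
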