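import Pool.Agent.Lib.MP_6df72f_an.KP.Norms

/-!
The logarithmic lower bound.
-/

open Filter Topology Finset
open scoped ENNReal

namespace Pool.Agent.Lib.MP_6df72f_an.KP

variable {𝕜 : Type*} [RCLike 𝕜] {E : Type*} [NormedAddCommGroup E] [NormedSpace 𝕜 E]

/-- a vector of length `n` written twice, from place `2 n` on -/
def dbl (n : ℕ) (u : ℕ → 𝕜) (k : ℕ) : 𝕜 :=
  if k < 2 * n then 0 else if k < 3 * n then u (k - 2 * n) else
    if k < 4 * n then u (k - 3 * n) else 0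

theorem dbl_low (n : ℕ) (u : ℕ → 𝕜) (k : ℕ) (h : k < 2 * n) : dbl n u k = 0 := if_pos h

theorem dbl_high (n : ℕ) (u : ℕ → 𝕜) (k : ℕ) (h : 4 * n ≤ k) : dbl n u k = 0 := by
  rw [dbl, if_neg (by omega), if_neg (by omega), if_neg (by omega)]

theorem dbl_two (n : ℕ) (u : ℕ → 𝕜) (i : ℕ) (h : i < n) : dbl n u (2 * n + i) = u i := by
  rw [dbl, if_neg (by omega), if_pos (by omega), Nat.add_sub_cancel_left]

theorem dbl_three (n : ℕ) (u : ℕ → 𝕜) (i : ℕ) (h : i < n) : dbl n u (3 * n + i) = u i := by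
  rw [dbl, if_neg (by omega), if_neg (by omega), if_pos (by omega), Nat.add_sub_cancel_left]

theorem sum_dbl_three {V : Type*} [AddCommMonoid V] (n : ℕ) (u : ℕ → 𝕜) (g : 𝕜 → ℕ → V)
    (hg : ∀ k, g 0 k = 0) :
    ∑ k ∈ range (3 * n), g (dbl n u k) k = ∑ i ∈ range n, g (u i) (2 * n + i) := by
  rw [show 3 * n = 2 * n + n by ring, sum_range_add,
    sum_eq_zero fun k hk => by rw [dbl_low n u k (mem_range.1 hk), hg], zero_add]
  exact sum_congr rfl fun i hi => by rw [dbl_two n u i (mem_range.1 hi)]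

theorem sum_dbl_four {V : Type*} [AddCommMonoid V] (n : ℕ) (u : ℕ → 𝕜) (g : 𝕜 → ℕ → V)
    (hg : ∀ k, g 0 k = 0) :
    ∑ k ∈ range (4 * n), g (dbl n u k) k =
      ∑ i ∈ range n, (g (u i) (2 * n + i) + g (u i) (3 * n + i)) := by
  rw [show 4 * n = 3 * n + n by ring, sum_range_add, sum_dbl_three n u g hg, sum_add_distrib]
  congr 1
  exact sum_congr rfl fun i hi => by rw [dbl_three n u i (mem_range.1 hi)]

theorem al_block (m i : ℕ) (h : i < 2 ^ m) : al (2 ^ m + i) = 2 * 2 ^ m + i := by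
  rw [al, Nat.log_eq_of_pow_le_of_lt_pow (m := m) (by omega) (by rw [pow_succ]; omega)]
  omega

theorem be_block (m i : ℕ) (h : i < 2 ^ m) : be (2 ^ m + i) = 3 * 2 ^ m + i := by
  rw [be, Nat.log_eq_of_pow_le_of_lt_pow (m := m) (by omega) (by rw [pow_succ]; omega)]
  omega

theorem dbl_al_be (m : ℕ) (hm : 1 ≤ m) (u : ℕ → 𝕜) (j : ℕ) :
    dbl (2 ^ m) u (al j) = dbl (2 ^ m) u (be j) := by
  have h2 : 2 ^ 1 ≤ 2 ^ m := Nat.pow_le_pow_right (by norm_num) hm
  rcases lt_or_ge j (2 ^ m) with h | h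
  · have hb : be j < 2 * 2 ^ m := by
      rcases Nat.eq_zero_or_pos j with rfl | hj
      · simp only [be, Nat.log_zero_right]; omega
      · have h3 : Nat.log 2 j < m := Nat.log_lt_of_lt_pow hj.ne' h
        have h4 : 2 ^ (Nat.log 2 j + 1) ≤ 2 ^ m := Nat.pow_le_pow_right (by norm_num) h3
        rw [pow_succ] at h4
        simp only [be]; omega
    have ha : al j < 2 * 2 ^ m := by
      simp only [al, be] at hb ⊢; omega
    rw [dbl_low _ _ _ ha, dbl_low _ _ _ hb]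
  rcases lt_or_ge j (2 * 2 ^ m) with h' | h'
  · obtain ⟨i, rfl⟩ := Nat.exists_eq_add_of_le h
    rw [al_block m i (by omega), be_block m i (by omega), dbl_two _ _ _ (by omega),
      dbl_three _ _ _ (by omega)]
  · have h3 : m + 1 ≤ Nat.log 2 j := Nat.le_log_of_pow_le (by norm_num) (by rw [pow_succ]; omega)
    have h4 : 2 ^ (m + 1) ≤ 2 ^ Nat.log 2 j := Nat.pow_le_pow_right (by norm_num) h3
    rw [pow_succ] at h4
    rw [dbl_high _ _ _ (by simp only [al]; omega), dbl_high _ _ _ (by simp only [be]; omega)]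

theorem lp_sum_sq (y : lp (fun _ : ℕ => 𝕜) 2) (s : Finset ℕ) :
    ∑ j ∈ s, ‖y j‖ ^ 2 ≤ ‖y‖ ^ 2 := by
  have := lp.sum_rpow_le_norm_rpow (p := 2) (by norm_num) y s
  simpa using this

theorem exists_lp (y : ℕ → 𝕜) (L : ℝ) (hL : 0 ≤ L)
    (h : ∀ s : Finset ℕ, ∑ j ∈ s, ‖y j‖ ^ 2 ≤ L ^ 2) :
    ∃ Y : lp (fun _ : ℕ => 𝕜) 2, (∀ j, Y j = y j) ∧ ‖Y‖ ≤ L := by
  refine ⟨⟨y, memℓp_gen' (C := L ^ 2) fun s => by simpa using h s⟩, fun _ => rfl, ?_⟩
  exact lp.norm_le_of_forall_sum_le (by norm_num) hL fun s => by simpa using h s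

namespace Model

variable (M : Model 𝕜 E)

theorem sum_p_a (c : ℕ → 𝕜) (s : Finset ℕ) (k : ℕ) :
    (∑ i ∈ s, c i • M.p i) (M.a k) = if k ∈ s then c k else 0 := by
  rw [_root_.sum_apply]
  simp only [smul_apply, p_a, smul_eq_mul, mul_ite, mul_one, mul_zero]
  rw [sum_ite_eq]

theorem sum_p_b (c : ℕ → 𝕜) (s : Finset ℕ) (j : ℕ) : (∑ i ∈ s, c i • M.p i) (M.b j) = 0 := by
  rw [_root_.sum_apply]
  simp only [smul_apply, p_b, smul_zero, sum_const_zero]

theorem main (f : ℕ → E →L[𝕜] 𝕜) (hf : ∀ i k, f i (M.a k) = if k = i then 1 else 0)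
    (K : ℝ) (hK0 : 0 ≤ K) (hK : ∀ (a : ℕ → 𝕜) (n m : ℕ), n ≤ m →
      ‖∑ i ∈ range n, a i • f i‖ ≤ K * ‖∑ i ∈ range m, a i • f i‖)
    (m : ℕ) (hm : 1 ≤ m) (A : ℝ) (hA : ∀ k < 4 * 2 ^ m, ‖f k‖ ≤ A) :
    m * Real.log 2 ≤ 200 * (K + 1) * (A + 1) := by
  obtain ⟨n, hn⟩ : ∃ n, n = 2 ^ m := ⟨_, rfl⟩
  have hn0 : 0 < n := hn ▸ Nat.two_pow_pos m
  have hnR : (0 : ℝ) < n := by exact_mod_cast hn0
  rw [← hn] at hA
  have hA0 : 0 ≤ A := (norm_nonneg _).trans (hA 0 (by omega))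
  obtain ⟨L, hL⟩ : ∃ L, L = 5 * (A + 1) := ⟨_, rfl⟩
  have hL5 : 5 ≤ L := by linarith
  let h : ℕ → E →L[𝕜] 𝕜 := fun i => f i - M.p i
  have hha : ∀ i k, h i (M.a k) = 0 := fun i k => by
    simp only [h, sub_apply, hf, p_a, sub_self]
  choose Y hY hYn using fun i => exists_lp (fun j => h i (M.b j)) (5 * ‖h i‖) (by positivity)
    (M.sum_sq_b (h i) (hha i))
  have hYL : ∀ i < 4 * n, ‖Y i‖ ≤ L := fun i hi => by
    have h1 : ‖h i‖ ≤ ‖f i‖ + ‖M.p i‖ := norm_sub_le _ _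
    have := hA i hi
    have := M.p_norm i
    have := hYn i
    linarith
  obtain ⟨ε, hε, hs⟩ := signs (𝕜 := 𝕜) (fun i => Y (2 * n + i))
    (fun i => Y (2 * n + i) + Y (3 * n + i)) (range n)
  have hs' : ∑ i ∈ range n, (‖Y (2 * n + i)‖ ^ 2 + ‖Y (2 * n + i) + Y (3 * n + i)‖ ^ 2) ≤
      n * (5 * L ^ 2) := by
    have : ∀ i ∈ range n, ‖Y (2 * n + i)‖ ^ 2 + ‖Y (2 * n + i) + Y (3 * n + i)‖ ^ 2 ≤
        5 * L ^ 2 := by
      intro i hi
      have hi' := mem_range.1 hi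
      have h1 := hYL (2 * n + i) (by omega)
      have h2 := hYL (3 * n + i) (by omega)
      have h3 : ‖Y (2 * n + i) + Y (3 * n + i)‖ ≤ 2 * L := (norm_add_le _ _).trans (by linarith)
      have h4 : ‖Y (2 * n + i)‖ ^ 2 ≤ L ^ 2 := by gcongr
      have h5 : ‖Y (2 * n + i) + Y (3 * n + i)‖ ^ 2 ≤ (2 * L) ^ 2 := by gcongr
      nlinarith
    simpa using sum_le_card_nsmul _ _ _ this
  obtain ⟨δ, hδ0, hδ⟩ : ∃ δ : ℝ, 0 < δ ∧ n * δ ^ 2 = 1 :=
    ⟨(√n)⁻¹, by positivity, by rw [inv_pow, Real.sq_sqrt hnR.le]; field_simp⟩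
  let u : ℕ → 𝕜 := fun i => (δ : 𝕜) * ε i
  have hu : ∀ i, ‖u i‖ = δ := fun i => by
    rcases hε i with h1 | h1 <;> simp [u, h1, abs_of_pos hδ0]
  have hu2 : ∀ i, u i * u i = ((δ ^ 2 : ℝ) : 𝕜) := fun i => by
    rcases hε i with h1 | h1 <;> simp only [u, h1] <;> push_cast <;> ring
  have hscale : ∀ v : ℕ → lp (fun _ : ℕ => 𝕜) 2,
      ‖∑ i ∈ range n, ε i • v i‖ ^ 2 ≤ n * (5 * L ^ 2) →
      ‖∑ i ∈ range n, u i • v i‖ ^ 2 ≤ (3 * L) ^ 2 := by
    intro v hv
    have : ∑ i ∈ range n, u i • v i = (δ : 𝕜) • ∑ i ∈ range n, ε i • v i := by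
      rw [smul_sum]
      exact sum_congr rfl fun i _ => by rw [smul_smul]
    rw [this, norm_smul, RCLike.norm_ofReal, mul_pow, sq_abs]
    calc _ ≤ δ ^ 2 * (n * (5 * L ^ 2)) := by gcongr
      _ = (n * δ ^ 2) * (5 * L ^ 2) := by ring
      _ ≤ (3 * L) ^ 2 := by rw [hδ]; nlinarith
  have hv1 := hscale (fun i => Y (2 * n + i)) (by
    have := sq_nonneg ‖∑ i ∈ range n, ε i • (Y (2 * n + i) + Y (3 * n + i))‖
    linarith)
  have hv2 := hscale (fun i => Y (2 * n + i) + Y (3 * n + i)) (by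
    have := sq_nonneg ‖∑ i ∈ range n, ε i • Y (2 * n + i)‖
    linarith)
  let c : ℕ → 𝕜 := dbl n u
  have hsplit : ∀ N, ∑ k ∈ range N, c k • f k =
      ∑ k ∈ range N, c k • M.p k + ∑ k ∈ range N, c k • h k := fun N => by
    rw [← sum_add_distrib]
    refine sum_congr rfl fun k _ => ?_
    ext e
    simp only [h, add_apply, smul_apply, sub_apply, smul_eq_mul]
    ring
  have hHa : ∀ N k, (∑ i ∈ range N, c i • h i) (M.a k) = 0 := fun N k => by
    rw [_root_.sum_apply]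
    simp only [smul_apply, hha, smul_zero, sum_const_zero]
  have hz : ∀ k, (0 : 𝕜) • h k = 0 := fun k => by
    ext e
    simp
  have hH1 : ‖∑ k ∈ range (3 * n), c k • h k‖ ≤ 3 * L := by
    refine M.norm_le_inr _ _ (by linarith) (hHa _) fun s => ?_
    refine le_trans (le_of_eq (sum_congr rfl fun j _ => ?_)) ((lp_sum_sq _ s).trans hv1)
    rw [sum_dbl_three n u (fun t k => t • h k) hz, _root_.sum_apply,
      lp.coeFn_sum, Finset.sum_apply]
    simp only [smul_apply, lp.coeFn_smul, Pi.smul_apply, hY]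
  have hH2 : ‖∑ k ∈ range (4 * n), c k • h k‖ ≤ 3 * L := by
    refine M.norm_le_inr _ _ (by linarith) (hHa _) fun s => ?_
    refine le_trans (le_of_eq (sum_congr rfl fun j _ => ?_)) ((lp_sum_sq _ s).trans hv2)
    rw [sum_dbl_four n u (fun t k => t • h k) hz, _root_.sum_apply,
      lp.coeFn_sum, Finset.sum_apply]
    simp only [add_apply, smul_apply, lp.coeFn_smul, lp.coeFn_add, Pi.smul_apply, Pi.add_apply,
      hY, smul_add]
  have hP2a : ∀ k, (∑ i ∈ range (4 * n), c i • M.p i) (M.a k) = c k := fun k => by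
    rw [sum_p_a]
    split_ifs with hk
    · rfl
    · exact (dbl_high n u k (by simpa using hk)).symm
  have hP2 : ‖∑ k ∈ range (4 * n), c k • M.p k‖ ≤ 2 := by
    refine M.norm_le_inl _ _ two_pos (M.sum_p_b _ _) (fun s => ?_) fun j => ?_
    · simp only [sum_p_a]
      refine (sum_trunc_le c _ s).trans ?_
      rw [sum_dbl_four n u (fun t _ => ‖t‖ ^ 2) fun k => by simp]
      simp only [hu, sum_const, card_range, nsmul_eq_mul]
      nlinarith
    · rw [hP2a, hP2a]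
      subst hn
      exact dbl_al_be m hm u j
  let x : E := M.xw (Ico n (2 * n)) fun j => u (j - n)
  have hx : ‖x‖ ≤ 5 := by
    refine M.norm_xw _ _ ?_
    simp only [hu, sum_const, Nat.card_Ico, nsmul_eq_mul]
    rw [show 2 * n - n = n by omega, hδ]
  have hP1 : (∑ k ∈ range (3 * n), c k • M.p k) x = ((Real.log δ : ℝ) : 𝕜) := by
    rw [apply_xw, sum_Ico_eq_sum_range, show 2 * n - n = n by omega]
    have : ∀ i ∈ range n, om (u (n + i - n)) *
        ((∑ k ∈ range (3 * n), c k • M.p k) (M.a (al (n + i))) -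
          (∑ k ∈ range (3 * n), c k • M.p k) (M.a (be (n + i)))) +
        u (n + i - n) * (∑ k ∈ range (3 * n), c k • M.p k) (M.b (n + i)) =
        ((Real.log δ * δ ^ 2 : ℝ) : 𝕜) := by
      intro i hi
      have hi' := mem_range.1 hi
      have h1 : al (n + i) = 2 * n + i := by subst hn; exact al_block m i hi'
      have h2 : be (n + i) = 3 * n + i := by subst hn; exact be_block m i hi'
      rw [sum_p_b, sum_p_a, sum_p_a, h1, h2, if_pos (mem_range.2 (by omega)),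
        if_neg (by rw [mem_range]; omega), Nat.add_sub_cancel_left]
      simp only [c]
      rw [dbl_two n u i hi', om, hu, sub_zero, mul_zero, add_zero, mul_assoc, hu2]
      push_cast; rfl
    rw [sum_congr rfl this, sum_const, card_range, nsmul_eq_mul]
    have h3 : (n : ℝ) * (Real.log δ * δ ^ 2) = Real.log δ := by
      rw [mul_left_comm, hδ, mul_one]
    exact_mod_cast congrArg (fun t : ℝ => (t : 𝕜)) h3
  have hlog : m * Real.log 2 = - (2 * Real.log δ) := by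
    have h1 := congrArg Real.log hδ
    rw [Real.log_mul hnR.ne' (by positivity), Real.log_pow, Real.log_one, hn] at h1
    push_cast at h1
    rw [Real.log_pow] at h1
    linarith
  have h1 := hK c (3 * n) (4 * n) (by omega)
  have h2 : ‖∑ k ∈ range (4 * n), c k • f k‖ ≤ 2 + 3 * L := by
    rw [hsplit]
    exact (norm_add_le _ _).trans (add_le_add hP2 hH2)
  have h3 : ‖∑ k ∈ range (3 * n), c k • M.p k‖ ≤ K * (4 * L) + 3 * L := by
    have h4 : ∑ k ∈ range (3 * n), c k • M.p k =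
        ∑ k ∈ range (3 * n), c k • f k - ∑ k ∈ range (3 * n), c k • h k := by
      rw [hsplit, add_sub_cancel_right]
    rw [h4]
    refine (norm_sub_le _ _).trans (add_le_add (h1.trans ?_) hH1)
    exact mul_le_mul_of_nonneg_left (by linarith) hK0
  have h5 := (∑ k ∈ range (3 * n), c k • M.p k).le_opNorm x
  rw [hP1, RCLike.norm_ofReal] at h5
  have h6 : |Real.log δ| ≤ (K * (4 * L) + 3 * L) * 5 :=
    h5.trans (mul_le_mul h3 hx (norm_nonneg _) (by positivity))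
  have h7 := neg_abs_le (Real.log δ)
  rw [hlog]
  subst hL
  nlinarith

end Model

end Pool.Agent.Lib.MP_6df72f_an.KP
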