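import Pool.Agent.Lib.MP_6df72f_an.KP.Space

/-!
Norm estimates in the model.
-/

open Filter Topology Finset
open scoped ENNReal

namespace Pool.Agent.Lib.MP_6df72f_an.KP

variable {𝕜 : Type*} [RCLike 𝕜] {E : Type*} [NormedAddCommGroup E] [NormedSpace 𝕜 E]

/-- scaling into the ball -/
noncomputable def sc (c : ℕ → 𝕜) (R : ℝ) (hR : 0 < R)
    (hc : ∀ s : Finset ℕ, ∑ k ∈ s, ‖c k‖ ^ 2 ≤ R ^ 2) : Ball 𝕜 :=
  ⟨fun k => c k / (R : 𝕜), fun s => by
    have : ∀ k, ‖c k / (R : 𝕜)‖ ^ 2 = ‖c k‖ ^ 2 / R ^ 2 := fun k => by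
      rw [norm_div, RCLike.norm_ofReal, div_pow, sq_abs]
    simp only [this]
    rw [← sum_div, div_le_one (by positivity)]
    exact hc s⟩

/-- the unit vectors -/
noncomputable def unitB (i : ℕ) : Ball 𝕜 :=
  ⟨fun k => if k = i then 1 else 0, fun s => by
    have : ∀ k, ‖(if k = i then 1 else 0 : 𝕜)‖ ^ 2 = if k = i then 1 else 0 := fun k => by
      split_ifs <;> simp
    simp only [this]
    rw [sum_ite_eq']
    split_ifs <;> norm_num⟩

namespace Model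

variable (M : Model 𝕜 E)

theorem norm_smul_ev (R : ℝ) (hR : 0 < R) (x : Ball 𝕜 ⊕ Ball 𝕜) : ‖(R : 𝕜) • M.ev x‖ ≤ R := by
  rw [norm_smul, RCLike.norm_ofReal, abs_of_pos hR]
  exact mul_le_of_le_one_right hR.le (M.ev_norm x)

theorem norm_le_inr (F : E →L[𝕜] 𝕜) (R : ℝ) (hR : 0 < R) (ha : ∀ k, F (M.a k) = 0)
    (hb : ∀ s : Finset ℕ, ∑ j ∈ s, ‖F (M.b j)‖ ^ 2 ≤ R ^ 2) : ‖F‖ ≤ R := by
  have hR' : (R : 𝕜) ≠ 0 := by exact_mod_cast hR.ne'
  have : F = (R : 𝕜) • M.ev (.inr (sc (fun j => F (M.b j)) R hR hb)) := by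
    refine M.ext _ _ (fun k => ?_) (fun j => ?_)
    · rw [ha, smul_apply, M.inr_a, smul_zero]
    · rw [smul_apply, M.inr_b, smul_eq_mul]
      simp only [sc]
      field_simp
  rw [this]
  exact M.norm_smul_ev R hR _

theorem norm_le_inl (F : E →L[𝕜] 𝕜) (R : ℝ) (hR : 0 < R) (hb : ∀ j, F (M.b j) = 0)
    (ha : ∀ s : Finset ℕ, ∑ k ∈ s, ‖F (M.a k)‖ ^ 2 ≤ R ^ 2)
    (hT : ∀ j, F (M.a (al j)) = F (M.a (be j))) : ‖F‖ ≤ R := by
  have hR' : (R : 𝕜) ≠ 0 := by exact_mod_cast hR.ne'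
  have : F = (R : 𝕜) • M.ev (.inl (sc (fun k => F (M.a k)) R hR ha)) := by
    refine M.ext _ _ (fun k => ?_) (fun j => ?_)
    · rw [smul_apply, M.inl_a, smul_eq_mul]
      simp only [sc]
      field_simp
    · rw [hb, smul_apply, M.inl_b]
      simp only [sc]
      rw [hT, sub_self, om_zero, neg_zero, smul_zero]
  rw [this]
  exact M.norm_smul_ev R hR _

/-- the subspace -/
noncomputable def G : Submodule 𝕜 E := (Submodule.span 𝕜 (Set.range M.a)).topologicalClosure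

theorem G_closed : IsClosed (M.G : Set E) := Submodule.isClosed_topologicalClosure _

noncomputable def aG (k : ℕ) : M.G :=
  ⟨M.a k, Submodule.le_topologicalClosure _ (Submodule.subset_span ⟨k, rfl⟩)⟩

theorem G_ext (F F' : M.G →L[𝕜] 𝕜) (ha : ∀ k, F (M.aG k) = F' (M.aG k)) : F = F' := by
  refine ext_closure (Set.range M.a) F F' ?_
  rintro ⟨x, hx⟩ ⟨k, rfl⟩
  exact ha k

theorem norm_le_G (F : M.G →L[𝕜] 𝕜) (R : ℝ) (hR : 0 < R)
    (ha : ∀ s : Finset ℕ, ∑ k ∈ s, ‖F (M.aG k)‖ ^ 2 ≤ R ^ 2) : ‖F‖ ≤ R := by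
  have hR' : (R : 𝕜) ≠ 0 := by exact_mod_cast hR.ne'
  have : F = ((R : 𝕜) • M.ev (.inl (sc (fun k => F (M.aG k)) R hR ha))).comp M.G.subtypeL := by
    refine M.G_ext _ _ (fun k => ?_)
    have h1 : (((R : 𝕜) • M.ev (.inl (sc (fun k => F (M.aG k)) R hR ha))).comp M.G.subtypeL)
        (M.aG k) = (R : 𝕜) • M.ev (.inl (sc (fun k => F (M.aG k)) R hR ha)) (M.a k) := rfl
    rw [h1, M.inl_a, smul_eq_mul]
    simp only [sc]
    field_simp
  rw [this]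
  refine ContinuousLinearMap.opNorm_le_bound _ hR.le fun x => ?_
  exact (ContinuousLinearMap.le_opNorm ((R : 𝕜) • M.ev _) (x : E)).trans
    (mul_le_mul_of_nonneg_right (M.norm_smul_ev R hR _) (norm_nonneg _))

/-- the norm preserving extensions -/
noncomputable def p (i : ℕ) : E →L[𝕜] 𝕜 := M.ev (.inl (unitB i))

theorem p_a (i k : ℕ) : M.p i (M.a k) = if k = i then 1 else 0 := M.inl_a _ _

theorem p_b (i j : ℕ) : M.p i (M.b j) = 0 := by
  rw [p, M.inl_b, neg_eq_zero]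
  simp only [unitB]
  split_ifs
  · rw [sub_self, om_zero]
  · exact om_of_norm_one (by simp)
  · exact om_of_norm_one (by simp)
  · rw [sub_self, om_zero]

theorem p_norm (i : ℕ) : ‖M.p i‖ ≤ 1 := M.ev_norm _

/-- the basic sequence -/
noncomputable def phi (i : ℕ) : M.G →L[𝕜] 𝕜 := (M.p i).comp M.G.subtypeL

theorem phi_a (i k : ℕ) : M.phi i (M.aG k) = if k = i then 1 else 0 := M.p_a i k

theorem sum_phi_a (c : ℕ → 𝕜) (s : Finset ℕ) (k : ℕ) :
    (∑ i ∈ s, c i • M.phi i) (M.aG k) = if k ∈ s then c k else 0 := by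
  rw [_root_.sum_apply]
  simp only [smul_apply, phi_a, smul_eq_mul, mul_ite, mul_one, mul_zero]
  rw [sum_ite_eq]

theorem sum_trunc_le (c : ℕ → 𝕜) (s t : Finset ℕ) :
    ∑ k ∈ t, ‖(if k ∈ s then c k else 0 : 𝕜)‖ ^ 2 ≤ ∑ k ∈ s, ‖c k‖ ^ 2 := by
  have : ∀ k, ‖(if k ∈ s then c k else 0 : 𝕜)‖ ^ 2 = if k ∈ s then ‖c k‖ ^ 2 else 0 := fun k => by
    split_ifs <;> simp
  simp only [this]
  rw [← sum_filter]
  exact sum_le_sum_of_subset_of_nonneg (fun k hk => (mem_filter.1 hk).2) fun _ _ _ => by positivity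

theorem cs_ball (z : Ball 𝕜) (w : ℕ → 𝕜) (s : Finset ℕ) :
    ‖∑ k ∈ s, w k * z.1 k‖ ≤ √(∑ k ∈ s, ‖w k‖ ^ 2) := by
  refine (norm_sum_le _ _).trans (Real.le_sqrt_of_sq_le ?_)
  simp only [norm_mul]
  refine (sum_mul_sq_le_sq_mul_sq s _ _).trans ?_
  exact mul_le_of_le_one_right (sum_nonneg fun _ _ => by positivity) (z.2 s)

theorem norm_phi (c : ℕ → 𝕜) (s : Finset ℕ) :
    ‖∑ i ∈ s, c i • M.phi i‖ = √(∑ i ∈ s, ‖c i‖ ^ 2) := by
  have hS : 0 ≤ ∑ i ∈ s, ‖c i‖ ^ 2 := sum_nonneg fun _ _ => by positivity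
  rcases hS.eq_or_lt with h0 | hS'
  · have hc : ∀ i ∈ s, c i = 0 := fun i hi => by
      have := (sum_eq_zero_iff_of_nonneg fun _ _ => by positivity).1 h0.symm i hi
      simpa using this
    have h1 : ∑ i ∈ s, c i • M.phi i = 0 := by
      refine M.G_ext _ _ fun k => ?_
      rw [sum_phi_a]
      split_ifs with hk
      · exact hc k hk
      · rfl
    rw [← h0, h1]
    simp
  have hR : 0 < √(∑ i ∈ s, ‖c i‖ ^ 2) := Real.sqrt_pos.2 hS'
  apply le_antisymm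
  · refine M.norm_le_G _ _ hR fun t => ?_
    simp only [sum_phi_a]
    rw [Real.sq_sqrt hS]
    exact sum_trunc_le c s t
  · let x : M.G := ∑ k ∈ s, (starRingEnd 𝕜) (c k) • M.aG k
    have hx : ‖x‖ ≤ √(∑ i ∈ s, ‖c i‖ ^ 2) := by
      have h1 : (x : E) = ∑ k ∈ s, (starRingEnd 𝕜) (c k) • M.a k := by
        simp [x, aG]
      rw [Submodule.coe_norm, h1]
      refine M.norm_le _ _ hR.le fun y => ?_
      rw [map_sum]
      cases y with
      | inl z =>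
        simp only [map_smul, M.inl_a, smul_eq_mul]
        simpa using cs_ball z (fun k => (starRingEnd 𝕜) (c k)) s
      | inr z => simp [M.inr_a]
    have hv : (∑ i ∈ s, c i • M.phi i) x = ((∑ i ∈ s, ‖c i‖ ^ 2 : ℝ) : 𝕜) := by
      simp only [x, map_sum, map_smul, sum_phi_a, smul_eq_mul]
      push_cast
      refine sum_congr rfl fun k hk => ?_
      rw [if_pos hk, RCLike.conj_mul]
    have h2 := (∑ i ∈ s, c i • M.phi i).le_opNorm x
    rw [hv, RCLike.norm_ofReal, abs_of_nonneg hS] at h2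
    have h3 := Real.mul_self_sqrt hS
    have h4 := mul_le_mul_of_nonneg_left hx (norm_nonneg (∑ i ∈ s, c i • M.phi i))
    nlinarith

/-- the bounded lift of a finitely supported vector -/
noncomputable def xw (s : Finset ℕ) (w : ℕ → 𝕜) : E :=
  ∑ j ∈ s, (om (w j) • (M.a (al j) - M.a (be j)) + w j • M.b j)

theorem apply_xw (F : E →L[𝕜] 𝕜) (s : Finset ℕ) (w : ℕ → 𝕜) :
    F (M.xw s w) =
      ∑ j ∈ s, (om (w j) * (F (M.a (al j)) - F (M.a (be j))) + w j * F (M.b j)) := by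
  simp only [xw, map_sum, map_add, map_smul, map_sub, smul_eq_mul]

theorem ball_inj (z : Ball 𝕜) (g : ℕ → ℕ) (hg : Function.Injective g) (s : Finset ℕ) :
    ∑ j ∈ s, ‖z.1 (g j)‖ ^ 2 ≤ 1 := by
  have := z.2 (s.map ⟨g, hg⟩)
  rwa [sum_map] at this

theorem norm_xw (s : Finset ℕ) (w : ℕ → 𝕜) (hw : ∑ j ∈ s, ‖w j‖ ^ 2 ≤ 1) : ‖M.xw s w‖ ≤ 5 := by
  refine M.norm_le _ _ (by norm_num) fun y => ?_
  rw [apply_xw]
  cases y with
  | inl z =>
    simp only [M.inl_a, M.inl_b]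
    have h1 : ∀ j ∈ s, ‖om (w j) * (z.1 (al j) - z.1 (be j)) +
        w j * -om (z.1 (al j) - z.1 (be j))‖ ≤
        ‖w j‖ ^ 2 + (2 * ‖z.1 (al j)‖ ^ 2 + 2 * ‖z.1 (be j)‖ ^ 2) := by
      intro j _
      have h := om_key (w j) (z.1 (al j) - z.1 (be j))
      rw [mul_neg, ← sub_eq_add_neg]
      refine h.trans (add_le_add le_rfl ?_)
      have h2 := norm_sub_le (z.1 (al j)) (z.1 (be j))
      have h3 := norm_nonneg (z.1 (al j) - z.1 (be j))
      nlinarith [sq_nonneg (‖z.1 (al j)‖ - ‖z.1 (be j)‖)]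
    refine (norm_sum_le _ _).trans ((sum_le_sum h1).trans ?_)
    rw [sum_add_distrib, sum_add_distrib, ← mul_sum, ← mul_sum]
    have := ball_inj z al al_inj s
    have := ball_inj z be be_inj s
    linarith
  | inr z =>
    simp only [M.inr_a, M.inr_b, sub_self, mul_zero, zero_add]
    refine (cs_ball z w s).trans ?_
    exact (Real.sqrt_le_one.2 hw).trans (by norm_num)

theorem sum_sq_b (h : E →L[𝕜] 𝕜) (ha : ∀ k, h (M.a k) = 0) (s : Finset ℕ) :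
    ∑ j ∈ s, ‖h (M.b j)‖ ^ 2 ≤ (5 * ‖h‖) ^ 2 := by
  have hS : 0 ≤ ∑ j ∈ s, ‖h (M.b j)‖ ^ 2 := sum_nonneg fun _ _ => by positivity
  rcases hS.eq_or_lt with h0 | hS'
  · rw [← h0]; positivity
  obtain ⟨R, hR, hR2⟩ : ∃ R : ℝ, 0 < R ∧ R ^ 2 = ∑ j ∈ s, ‖h (M.b j)‖ ^ 2 :=
    ⟨_, Real.sqrt_pos.2 hS', Real.sq_sqrt hS⟩
  have hR' : (R : 𝕜) ≠ 0 := by exact_mod_cast hR.ne'
  have hw : ∑ j ∈ s, ‖(starRingEnd 𝕜) (h (M.b j)) / (R : 𝕜)‖ ^ 2 ≤ 1 := by
    have : ∀ j, ‖(starRingEnd 𝕜) (h (M.b j)) / (R : 𝕜)‖ ^ 2 = ‖h (M.b j)‖ ^ 2 / R ^ 2 :=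
      fun j => by rw [norm_div, RCLike.norm_ofReal, div_pow, sq_abs, RCLike.norm_conj]
    simp only [this]
    rw [← sum_div, ← hR2, div_self (by positivity)]
  have h1 := M.norm_xw s _ hw
  have h2 := h.le_opNorm (M.xw s fun j => (starRingEnd 𝕜) (h (M.b j)) / (R : 𝕜))
  have h3 : h (M.xw s fun j => (starRingEnd 𝕜) (h (M.b j)) / (R : 𝕜)) = (R : 𝕜) := by
    rw [apply_xw]
    simp only [ha, sub_self, mul_zero, zero_add]
    have : ∀ j, (starRingEnd 𝕜) (h (M.b j)) / (R : 𝕜) * h (M.b j) =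
        ((‖h (M.b j)‖ ^ 2 : ℝ) : 𝕜) / (R : 𝕜) := fun j => by
      rw [div_mul_eq_mul_div, RCLike.conj_mul]; push_cast; rfl
    simp only [this]
    rw [← sum_div, ← RCLike.ofReal_sum, ← hR2]
    push_cast
    field_simp
  rw [h3, RCLike.norm_ofReal, abs_of_pos hR] at h2
  rw [← hR2]
  have h4 := mul_le_mul_of_nonneg_left h1 (norm_nonneg h)
  have h5 : R ≤ 5 * ‖h‖ := by linarith
  gcongr

end Model

theorem signs {H : Type*} [NormedAddCommGroup H] [InnerProductSpace 𝕜 H] (v v' : ℕ → H)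
    (s : Finset ℕ) : ∃ ε : ℕ → 𝕜, (∀ i, ε i = 1 ∨ ε i = -1) ∧
      ‖∑ i ∈ s, ε i • v i‖ ^ 2 + ‖∑ i ∈ s, ε i • v' i‖ ^ 2 ≤
        ∑ i ∈ s, (‖v i‖ ^ 2 + ‖v' i‖ ^ 2) := by
  classical
  induction s using Finset.induction_on with
  | empty => exact ⟨fun _ => 1, fun _ => Or.inl rfl, by simp⟩
  | insert k s hk ih =>
    obtain ⟨ε, hε, h⟩ := ih
    have hup : ∀ (t : 𝕜) (u : ℕ → H), ∑ i ∈ insert k s, Function.update ε k t i • u i =
        ∑ i ∈ s, ε i • u i + t • u k := by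
      intro t u
      rw [sum_insert hk, Function.update_self, add_comm]
      congr 1
      refine sum_congr rfl fun i hi => ?_
      rw [Function.update_of_ne (by rintro rfl; exact hk hi)]
    have hsg : ∀ t : 𝕜, (t = 1 ∨ t = -1) → ∀ i, Function.update ε k t i = 1 ∨
        Function.update ε k t i = -1 := by
      intro t ht i
      by_cases hi : i = k
      · subst hi; rwa [Function.update_self]
      · rw [Function.update_of_ne hi]; exact hε i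
    have h1 := parallelogram_law_with_norm 𝕜 (∑ i ∈ s, ε i • v i) (v k)
    have h2 := parallelogram_law_with_norm 𝕜 (∑ i ∈ s, ε i • v' i) (v' k)
    by_cases hc : ‖∑ i ∈ s, ε i • v i + v k‖ ^ 2 + ‖∑ i ∈ s, ε i • v' i + v' k‖ ^ 2 ≤
        ‖∑ i ∈ s, ε i • v i - v k‖ ^ 2 + ‖∑ i ∈ s, ε i • v' i - v' k‖ ^ 2
    · refine ⟨Function.update ε k 1, hsg 1 (Or.inl rfl), ?_⟩
      rw [hup, hup, one_smul, one_smul, sum_insert hk]
      nlinarith
    · refine ⟨Function.update ε k (-1), hsg (-1) (Or.inr rfl), ?_⟩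
      rw [hup, hup, neg_one_smul, neg_one_smul, sum_insert hk, ← sub_eq_add_neg, ← sub_eq_add_neg]
      nlinarith

end Pool.Agent.Lib.MP_6df72f_an.KP
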