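import Mathlib

/-!
A Kalton-Peck type space inside a space of bounded functions.
-/

open Filter Topology Finset
open scoped ENNReal

namespace Pool.Agent.Lib.MP_6df72f_an.KP

theorem ext_closure {𝕜 : Type*} [RCLike 𝕜] {X Y : Type*} [NormedAddCommGroup X] [NormedSpace 𝕜 X]
    [NormedAddCommGroup Y] [NormedSpace 𝕜 Y] (s : Set X)
    (F F' : (Submodule.span 𝕜 s).topologicalClosure →L[𝕜] Y)
    (h : ∀ x : (Submodule.span 𝕜 s).topologicalClosure, (x : X) ∈ s → F x = F' x) : F = F' := by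
  have hK : IsClosed ((F - F').ker : Set (Submodule.span 𝕜 s).topologicalClosure) :=
    (F - F').isClosed_ker
  have hWc : IsClosed ((Submodule.span 𝕜 s).topologicalClosure : Set X) :=
    Submodule.isClosed_topologicalClosure _
  have hK' : IsClosed (((F - F').ker.map (Submodule.span 𝕜 s).topologicalClosure.subtype :
      Submodule 𝕜 X) : Set X) := by
    rw [Submodule.map_coe]
    exact hWc.isClosedEmbedding_subtypeVal.isClosedMap _ hK
  have hle : (Submodule.span 𝕜 s).topologicalClosure ≤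
      (F - F').ker.map (Submodule.span 𝕜 s).topologicalClosure.subtype := by
    refine Submodule.topologicalClosure_minimal _ (Submodule.span_le.2 fun x hx => ?_) hK'
    have hxW : x ∈ (Submodule.span 𝕜 s).topologicalClosure :=
      Submodule.le_topologicalClosure _ (Submodule.subset_span hx)
    refine ⟨⟨x, hxW⟩, ?_, rfl⟩
    have := h ⟨x, hxW⟩ hx
    simp [this]
  ext x
  obtain ⟨y, hy, hyx⟩ := hle x.2
  have : y = x := Subtype.ext hyx
  subst this
  have h0 : (F - F') y = 0 := hy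
  simpa [sub_eq_zero] using h0

/-- the unit ball of the square summable sequences -/
def Ball (𝕜 : Type*) [RCLike 𝕜] : Type _ :=
  {z : ℕ → 𝕜 // ∀ s : Finset ℕ, ∑ k ∈ s, ‖z k‖ ^ 2 ≤ 1}

/-- bounded functions on two copies of the ball -/
abbrev Amb (𝕜 : Type*) [RCLike 𝕜] := lp (fun _ : Ball 𝕜 ⊕ Ball 𝕜 => 𝕜) ∞

variable {𝕜 : Type*} [RCLike 𝕜]

/-- the scalar Kalton-Peck map -/
noncomputable def om (t : 𝕜) : 𝕜 := ((Real.log ‖t‖ : ℝ) : 𝕜) * t

def al (j : ℕ) : ℕ := j + 2 ^ Nat.log 2 j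

def be (j : ℕ) : ℕ := j + 2 * 2 ^ Nat.log 2 j

theorem al_inj : Function.Injective al := by
  refine StrictMono.injective fun i j h => ?_
  have : 2 ^ Nat.log 2 i ≤ 2 ^ Nat.log 2 j :=
    Nat.pow_le_pow_right (by norm_num) (Nat.log_mono_right h.le)
  simp only [al]; omega

theorem be_inj : Function.Injective be := by
  refine StrictMono.injective fun i j h => ?_
  have : 2 ^ Nat.log 2 i ≤ 2 ^ Nat.log 2 j :=
    Nat.pow_le_pow_right (by norm_num) (Nat.log_mono_right h.le)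
  simp only [be]; omega

theorem real_key (a b : ℝ) (ha : 0 ≤ a) (hb : 0 ≤ b) :
    |Real.log a - Real.log b| * (a * b) ≤ a ^ 2 + b ^ 2 := by
  rcases ha.eq_or_lt with rfl | ha
  · simp; positivity
  rcases hb.eq_or_lt with rfl | hb
  · simp; positivity
  have h1 : Real.log a - Real.log b ≤ a / b := by
    rw [← Real.log_div ha.ne' hb.ne']
    have := Real.log_le_sub_one_of_pos (div_pos ha hb)
    linarith
  have h2 : Real.log b - Real.log a ≤ b / a := by
    rw [← Real.log_div hb.ne' ha.ne']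
    have := Real.log_le_sub_one_of_pos (div_pos hb ha)
    linarith
  have h3 : |Real.log a - Real.log b| ≤ a / b + b / a := by
    have := div_pos ha hb
    have := div_pos hb ha
    rw [abs_le]; constructor <;> linarith
  calc _ ≤ (a / b + b / a) * (a * b) := by gcongr
    _ = a ^ 2 + b ^ 2 := by field_simp

theorem om_key (w v : 𝕜) : ‖om w * v - w * om v‖ ≤ ‖w‖ ^ 2 + ‖v‖ ^ 2 := by
  have : om w * v - w * om v = ((Real.log ‖w‖ - Real.log ‖v‖ : ℝ) : 𝕜) * (w * v) := by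
    simp only [om]; push_cast; ring
  rw [this, norm_mul, norm_mul, RCLike.norm_ofReal]
  exact real_key _ _ (norm_nonneg _) (norm_nonneg _)

theorem om_of_norm_one {t : 𝕜} (h : ‖t‖ = 1) : om t = 0 := by simp [om, h]

theorem om_zero : om (0 : 𝕜) = 0 := by simp [om]

theorem Ball.norm_le (z : Ball 𝕜) (k : ℕ) : ‖z.1 k‖ ≤ 1 := by
  have := z.2 {k}
  rw [sum_singleton] at this
  nlinarith [norm_nonneg (z.1 k)]

theorem om_bound (z : Ball 𝕜) (i k : ℕ) : ‖om (z.1 i - z.1 k)‖ ≤ 5 := by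
  have h := om_key (z.1 i - z.1 k) 1
  rw [om_of_norm_one (norm_one : ‖(1 : 𝕜)‖ = 1)] at h
  simp only [mul_one, mul_zero, sub_zero, norm_one] at h
  have h2 : ‖z.1 i - z.1 k‖ ≤ 2 := by
    have := norm_sub_le (z.1 i) (z.1 k)
    have := z.norm_le i
    have := z.norm_le k
    linarith
  nlinarith [norm_nonneg (z.1 i - z.1 k)]

noncomputable def aa (k : ℕ) : Amb 𝕜 :=
  ⟨Sum.elim (fun z => z.1 k) (fun _ => 0), memℓp_infty ⟨1, by
    rintro _ ⟨x, rfl⟩
    cases x with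
    | inl z => exact z.norm_le k
    | inr z => simp⟩⟩

noncomputable def bb (j : ℕ) : Amb 𝕜 :=
  ⟨Sum.elim (fun z => - om (z.1 (al j) - z.1 (be j))) (fun z => z.1 j), memℓp_infty ⟨5, by
    rintro _ ⟨x, rfl⟩
    cases x with
    | inl z => simpa using om_bound z _ _
    | inr z => exact (z.norm_le j).trans (by norm_num)⟩⟩

/-- the data of the space that the proof uses -/
structure Model (𝕜 : Type*) [RCLike 𝕜] (E : Type*) [NormedAddCommGroup E] [NormedSpace 𝕜 E] where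
  a : ℕ → E
  b : ℕ → E
  ev : Ball 𝕜 ⊕ Ball 𝕜 → E →L[𝕜] 𝕜
  ev_norm : ∀ x, ‖ev x‖ ≤ 1
  norm_le : ∀ (e : E) (C : ℝ), 0 ≤ C → (∀ x, ‖ev x e‖ ≤ C) → ‖e‖ ≤ C
  ext : ∀ F F' : E →L[𝕜] 𝕜, (∀ k, F (a k) = F' (a k)) → (∀ j, F (b j) = F' (b j)) → F = F'
  inl_a : ∀ z k, ev (.inl z) (a k) = z.1 k
  inr_a : ∀ z k, ev (.inr z) (a k) = 0
  inl_b : ∀ z j, ev (.inl z) (b j) = - om (z.1 (al j) - z.1 (be j))
  inr_b : ∀ z j, ev (.inr z) (b j) = z.1 j

theorem model_of {X : Type*} [NormedAddCommGroup X] [NormedSpace 𝕜 X] (a b : ℕ → X)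
    (ev : Ball 𝕜 ⊕ Ball 𝕜 → X →L[𝕜] 𝕜) (h1 : ∀ x, ‖ev x‖ ≤ 1)
    (h2 : ∀ (e : X) (C : ℝ), 0 ≤ C → (∀ x, ‖ev x e‖ ≤ C) → ‖e‖ ≤ C)
    (h3 : ∀ z k, ev (.inl z) (a k) = z.1 k) (h4 : ∀ z k, ev (.inr z) (a k) = 0)
    (h5 : ∀ z j, ev (.inl z) (b j) = - om (z.1 (al j) - z.1 (be j)))
    (h6 : ∀ z j, ev (.inr z) (b j) = z.1 j) :
    Nonempty (Model 𝕜 (Submodule.span 𝕜 (Set.range a ∪ Set.range b)).topologicalClosure) := by
  refine ⟨⟨fun k => ⟨a k, Submodule.le_topologicalClosure _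
      (Submodule.subset_span (Or.inl ⟨k, rfl⟩))⟩,
    fun j => ⟨b j, Submodule.le_topologicalClosure _ (Submodule.subset_span (Or.inr ⟨j, rfl⟩))⟩,
    fun x => (ev x).comp (Submodule.subtypeL _), fun x => ?_, fun e C hC h => h2 e C hC h,
    fun F F' ha hb => ?_, h3, h4, h5, h6⟩⟩
  · refine ContinuousLinearMap.opNorm_le_bound _ zero_le_one fun e => ?_
    exact ((ev x).le_opNorm e).trans (mul_le_mul_of_nonneg_right (h1 x) (norm_nonneg _))
  · refine ext_closure (Set.range a ∪ Set.range b) F F' ?_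
    rintro ⟨x, hx⟩ (⟨k, rfl⟩ | ⟨j, rfl⟩)
    · exact ha k
    · exact hb j

/-- evaluation at a point -/
noncomputable def evA (x : Ball 𝕜 ⊕ Ball 𝕜) : Amb 𝕜 →L[𝕜] 𝕜 :=
  LinearMap.mkContinuous
    { toFun := fun e => e x
      map_add' := fun _ _ => rfl
      map_smul' := fun _ _ => rfl } 1
    (fun e => by
      rw [one_mul]
      exact lp.norm_apply_le_norm ENNReal.top_ne_zero e x)

universe u

theorem exists_model (𝕜 : Type u) [RCLike 𝕜] :
    ∃ (E : Type u) (_ : NormedAddCommGroup E) (_ : NormedSpace 𝕜 E),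
      CompleteSpace E ∧ Nonempty (Model 𝕜 E) := by
  refine ⟨(Submodule.span 𝕜 (Set.range (aa (𝕜 := 𝕜)) ∪ Set.range bb)).topologicalClosure,
    inferInstance, inferInstance, (Submodule.isClosed_topologicalClosure _).completeSpace_coe,
    model_of aa bb evA (fun x => LinearMap.mkContinuous_norm_le _ zero_le_one _)
      (fun e C hC h => lp.norm_le_of_forall_le hC h) (fun _ _ => rfl) (fun _ _ => rfl)
      (fun _ _ => rfl) (fun _ _ => rfl)⟩

end Pool.Agent.Lib.MP_6df72f_an.KP
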